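import Mathlib
import Pool.Agent.J4H26.KP.Noat
import Pool.Agent.J4H26.KP.Sup
import Pool.Agent.J4H19.KP.Iwk

set_option autoImplicit false

/-! Project KP, part 4, job N1: many big clusters. -/

namespace Pool.Agent.J4H72.KP

open Finset Filter Real
open Pool.Agent.J4H39 (U)
open Pool.Agent.J4H39.KP (nc cw_ne cw_ne_le)
open Pool.Agent.J4H26.KP
open Pool.Agent.J4H26.KT (iw cw sw sw_mono sw_add sw_nonneg sw_smul iw_cons iw_const iw_smul isE_cw isE_iw)
open Pool.Agent.J4H19.KP (sw_const)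

/-- product of functions of the single walks -/
theorem iw_prod {K : ℕ} (g : ℤ → ℝ) (s : ℕ) :
    iw (fun u : Fin K → ℤ => ∏ i, g (u i)) s (fun _ => 0) = (sw g s 0) ^ K := by
  induction K with
  | zero =>
    simp only [univ_eq_empty, prod_empty, pow_zero]
    exact iw_const 1 s _
  | succ K ih =>
    have e : (fun _ : Fin (K + 1) => (0 : ℤ)) = Fin.cons 0 (fun _ : Fin K => (0 : ℤ)) := by
      funext i
      refine Fin.cases ?_ (fun j => ?_) i
      · rw [Fin.cons_zero]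
      · rw [Fin.cons_succ]
    rw [e, iw_cons]
    have e2 : (fun d' : ℤ => iw (fun v : Fin K → ℤ => ∏ i, g ((Fin.cons d' v : Fin (K + 1) → ℤ) i)) s (fun _ => 0)) =
        fun d' => (sw g s 0) ^ K * g d' := by
      funext d'
      have e3 : (fun v : Fin K → ℤ => ∏ i, g ((Fin.cons d' v : Fin (K + 1) → ℤ) i)) = fun v => g d' * ∏ i, g (v i) := by
        funext v
        rw [Fin.prod_univ_succ]
        simp only [Fin.cons_zero, Fin.cons_succ]
      rw [e3, iw_smul, ih]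
      ring
    rw [e2, sw_smul, pow_succ]

theorem big_pt {K J : ℕ} (w : ℝ) (S : Fin J → Finset (Fin K)) (r : Fin J → Fin K)
    (hS : ∀ j, 2 * (w * K) ≤ (#(S j) : ℝ)) (hpos : ∀ j, 0 < (#(S j) : ℝ)) (u : Fin K → ℤ) :
    1 - (∑ j, 2 / (#(S j) : ℝ) * ∑ i ∈ S j, (if u (r j) = u i then (0 : ℝ) else 1) +
      ∑ j : Fin J, ∑ j' : Fin J,
        (if j < j' then 1 - (if u (r j) = u (r j') then (0 : ℝ) else 1) else 0)) ≤ bigI w J u := by
  classical
  have hn : ∀ a b : Fin J, 0 ≤ (if a < b then 1 - (if u (r a) = u (r b) then (0 : ℝ) else 1) else 0) := by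
    intro a b
    split_ifs <;> norm_num
  have hn1 : 0 ≤ ∑ j : Fin J, ∑ j' : Fin J,
      (if j < j' then 1 - (if u (r j) = u (r j') then (0 : ℝ) else 1) else 0) :=
    sum_nonneg fun a _ => sum_nonneg fun b _ => hn a b
  have hm : ∀ j, 0 ≤ 2 / (#(S j) : ℝ) * ∑ i ∈ S j, (if u (r j) = u i then (0 : ℝ) else 1) := by
    intro j
    refine mul_nonneg (by have := hpos j; positivity) (sum_nonneg fun i _ => ?_)
    split_ifs <;> norm_num
  have hm1 : 0 ≤ ∑ j, 2 / (#(S j) : ℝ) * ∑ i ∈ S j, (if u (r j) = u i then (0 : ℝ) else 1) :=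
    sum_nonneg fun j _ => hm j
  unfold bigI
  split_ifs with hb
  · linarith
  · by_cases h1 : ∃ j j' : Fin J, j < j' ∧ u (r j) = u (r j')
    · obtain ⟨j, j', hj, he⟩ := h1
      have h2 : (1 : ℝ) ≤ ∑ j : Fin J, ∑ j' : Fin J,
          (if j < j' then 1 - (if u (r j) = u (r j') then (0 : ℝ) else 1) else 0) := by
        calc (1 : ℝ) = (if j < j' then 1 - (if u (r j) = u (r j') then (0 : ℝ) else 1) else 0) := by
              rw [if_pos hj, if_pos he]; ring
          _ ≤ ∑ b : Fin J, (if j < b then 1 - (if u (r j) = u (r b) then (0 : ℝ) else 1) else 0) :=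
              single_le_sum (f := fun b : Fin J => (if j < b then 1 - (if u (r j) = u (r b) then (0 : ℝ) else 1) else 0))
                (fun b _ => hn j b) (mem_univ j')
          _ ≤ _ := single_le_sum (f := fun a : Fin J => ∑ b : Fin J,
                (if a < b then 1 - (if u (r a) = u (r b) then (0 : ℝ) else 1) else 0))
                (fun a _ => sum_nonneg fun b _ => hn a b) (mem_univ j)
      linarith
    · by_cases h2 : ∃ j : Fin J, (#(univ.filter fun i => u (r j) = u i) : ℝ) < w * K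
      · obtain ⟨j, hj⟩ := h2
        have h3 : (1 : ℝ) ≤ 2 / (#(S j) : ℝ) * ∑ i ∈ S j, (if u (r j) = u i then (0 : ℝ) else 1) := by
          have h4 : (#((S j).filter fun i => u (r j) = u i) : ℝ) ≤ #(univ.filter fun i => u (r j) = u i) := by
            exact_mod_cast card_le_card (filter_subset_filter _ (subset_univ _))
          have h5 : ∑ i ∈ S j, (if u (r j) = u i then (0 : ℝ) else 1) =
              #(S j) - #((S j).filter fun i => u (r j) = u i) := by
            have h6 : ∀ i ∈ S j, (if u (r j) = u i then (0 : ℝ) else 1) = 1 - (if u (r j) = u i then (1 : ℝ) else 0) := by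
              intro i _
              split_ifs <;> norm_num
            rw [sum_congr rfl h6, sum_sub_distrib, sum_const, nsmul_eq_mul, mul_one, sum_boole]
          rw [h5, div_mul_eq_mul_div, le_div_iff₀ (hpos j)]
          have := hS j
          linarith
        have h4 := single_le_sum (f := fun j => 2 / (#(S j) : ℝ) * ∑ i ∈ S j, (if u (r j) = u i then (0 : ℝ) else 1))
          (fun a _ => hm a) (mem_univ j)
        linarith
      · exfalso
        apply hb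
        push Not at h1 h2
        have hinj : Function.Injective fun j => univ.filter fun i => u (r j) = u i := by
          intro a b hab
          simp only at hab
          have h3 : r a ∈ univ.filter fun i => u (r b) = u i := by
            rw [← hab, mem_filter]
            exact ⟨mem_univ _, rfl⟩
          rw [mem_filter] at h3
          rcases lt_trichotomy a b with h4 | h4 | h4
          · exact absurd h3.2.symm (h1 a b h4)
          · exact h4
          · exact absurd h3.2 (h1 b a h4)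
        calc J = #(univ.image fun j : Fin J => univ.filter fun i => u (r j) = u i) := by
              rw [card_image_of_injective _ hinj, card_univ, Fintype.card_fin]
          _ ≤ _ := by
            apply card_le_card
            intro B hB
            obtain ⟨j, -, rfl⟩ := mem_image.1 hB
            rw [mem_filter]
            refine ⟨?_, h2 j⟩
            unfold cz
            exact mem_image_of_mem _ (mem_univ (r j))

theorem cw_big {K J k h : ℕ} (hk : 1 ≤ k) {e : ℝ} (he : 0 ≤ e) (w : ℝ) (S : Fin J → Finset (Fin K))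
    (r : Fin J → Fin K) (hS : ∀ j, 2 * (w * K) ≤ (#(S j) : ℝ)) (hpos : ∀ j, 0 < (#(S j) : ℝ))
    (z : Fin K → ℤ) (hz : ∀ j, ∀ i ∈ S j, |z i - z (r j)| ≤ h)
    (hU : ∀ j j' : Fin J, j < j' → 1 - e ≤ U (2 * k) (2 * (z (r j') - z (r j)))) :
    1 - (J * (6 * h / √(k : ℝ)) + (J : ℝ) ^ 2 * e) ≤ cw (bigI w J : (Fin K → ℤ) → ℝ) k z := by
  have hE := isE_cw k z
  refine le_trans ?_ (hE.mono _ _ (fun u => big_pt w S r hS hpos u))
  rw [hE.sub, hE.one, hE.add, hE.sum, hE.sum]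
  have h1 : ∀ j ∈ (univ : Finset (Fin J)), cw (fun u => 2 / (#(S j) : ℝ) *
      ∑ i ∈ S j, (if u (r j) = u i then (0 : ℝ) else 1)) k z ≤ 6 * h / √(k : ℝ) := by
    intro j _
    rw [hE.smul, hE.sum]
    have h2 : ∀ i ∈ S j, cw (fun u => if u (r j) = u i then (0 : ℝ) else 1) k z ≤ 3 * h / √(k : ℝ) := by
      intro i hi
      refine (cw_ne_le (r j) i hk z).trans ?_
      apply div_le_div_of_nonneg_right _ (Real.sqrt_nonneg _)
      have h3 : |((z i - z (r j) : ℤ) : ℝ)| ≤ h := by exact_mod_cast hz j i hi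
      linarith
    have h3 := sum_le_sum h2
    rw [sum_const, nsmul_eq_mul] at h3
    have h4 : 0 ≤ 2 / (#(S j) : ℝ) := by have := hpos j; positivity
    refine (mul_le_mul_of_nonneg_left h3 h4).trans (le_of_eq ?_)
    have := (hpos j).ne'
    field_simp
    ring
  have h2 : ∀ j ∈ (univ : Finset (Fin J)), cw (fun u => ∑ j' : Fin J,
      (if j < j' then 1 - (if u (r j) = u (r j') then (0 : ℝ) else 1) else 0)) k z ≤ J * e := by
    intro j _
    have e0 := hE.sum (univ : Finset (Fin J)) (fun j' u =>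
      (if j < j' then 1 - (if u (r j) = u (r j') then (0 : ℝ) else 1) else 0))
    rw [e0]
    have h3 : ∀ j' ∈ (univ : Finset (Fin J)), cw (fun u =>
        (if j < j' then 1 - (if u (r j) = u (r j') then (0 : ℝ) else 1) else 0)) k z ≤ e := by
      intro j' _
      by_cases hj : j < j'
      · simp only [if_pos hj]
        have e1 : cw (fun u => 1 - (if u (r j) = u (r j') then (0 : ℝ) else 1)) k z =
            1 - U (2 * k) (2 * (z (r j') - z (r j))) := by
          have e2 : (fun u : Fin K → ℤ => 1 - (if u (r j) = u (r j') then (0 : ℝ) else 1)) =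
              fun u => (1 : ℝ) + (-1) * (if u (r j) = u (r j') then (0 : ℝ) else 1) := by
            funext u
            ring
          rw [e2, hE.add, hE.smul, hE.one, cw_ne]
          ring
        rw [e1]
        linarith [hU j j' hj]
      · simp only [if_neg hj]
        rw [hE.const]
        exact he
    have h4 := sum_le_sum h3
    rw [sum_const, card_univ, Fintype.card_fin, nsmul_eq_mul] at h4
    exact h4
  have h3 := sum_le_sum h1
  have h4 := sum_le_sum h2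
  rw [sum_const, card_univ, Fintype.card_fin, nsmul_eq_mul] at h3 h4
  have h6 : (J : ℝ) * (J * e) = (J : ℝ) ^ 2 * e := by ring
  rw [h6] at h4
  linarith

/-- a full cell -/
theorem cell_pigeon {K h : ℕ} (hh : 1 ≤ h) (z : Fin K → ℤ) (L l : ℝ) (hl : 0 ≤ l) (N : Finset (Fin K))
    (hN : ∀ i ∈ N, L ≤ z i ∧ (z i : ℝ) ≤ L + l) (hne : N.Nonempty) :
    ∃ (S : Finset (Fin K)) (r : Fin K), S ⊆ N ∧ r ∈ S ∧ (#N : ℝ) ≤ (l / h + 2) * #S ∧
      ∀ i ∈ S, |z i - z r| ≤ h := by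
  classical
  have hh0 : (0 : ℝ) < h := by exact_mod_cast hh
  obtain ⟨T, hT⟩ : ∃ T : Finset ℤ, T = Finset.Icc ⌊L / h⌋ ⌊(L + l) / h⌋ := ⟨_, rfl⟩
  have hmem : ∀ i ∈ N, z i / (h : ℤ) ∈ T := by
    intro i hi
    obtain ⟨h1, h2⟩ := hN i hi
    rw [hT, Finset.mem_Icc]
    constructor
    · rw [Int.le_ediv_iff_mul_le (by exact_mod_cast hh)]
      have h3 : ((⌊L / h⌋ : ℤ) : ℝ) * h ≤ z i := by
        have h4 := Int.floor_le (L / h)
        rw [le_div_iff₀ hh0] at h4
        linarith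
      exact_mod_cast h3
    · rw [← Int.lt_add_one_iff, Int.ediv_lt_iff_lt_mul (by exact_mod_cast hh)]
      have h3 : (z i : ℝ) < (((⌊(L + l) / h⌋ + 1 : ℤ)) : ℝ) * h := by
        have h4 := Int.lt_floor_add_one ((L + l) / h)
        rw [div_lt_iff₀ hh0] at h4
        push_cast
        linarith
      exact_mod_cast h3
  obtain ⟨i₀, hi₀⟩ := hne
  have hTne : T.Nonempty := ⟨_, hmem i₀ hi₀⟩
  have hTpos : (0 : ℝ) < #T := by exact_mod_cast hTne.card_pos
  have hTc : (#T : ℝ) ≤ l / h + 2 := by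
    rw [hT, Int.card_Icc]
    have h5 : ((⌊(L + l) / h⌋ + 1 - ⌊L / h⌋ : ℤ) : ℝ) ≤ l / h + 2 := by
      have h3 := Int.lt_floor_add_one (L / h)
      have h4 := Int.floor_le ((L + l) / h)
      push_cast
      rw [add_div] at h4
      rw [add_div]
      linarith
    have h6 : 0 ≤ ⌊(L + l) / h⌋ + 1 - ⌊L / h⌋ := by
      have : ⌊L / h⌋ ≤ ⌊(L + l) / h⌋ := Int.floor_le_floor (by gcongr; linarith)
      omega
    calc (((⌊(L + l) / h⌋ + 1 - ⌊L / h⌋).toNat : ℕ) : ℝ) = ((⌊(L + l) / h⌋ + 1 - ⌊L / h⌋ : ℤ) : ℝ) := by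
          exact_mod_cast Int.toNat_of_nonneg h6
      _ ≤ _ := h5
  obtain ⟨y, hy, hyc⟩ := Finset.exists_le_card_fiber_of_nsmul_le_card_of_maps_to (M := ℝ) hmem hTne
    (b := (#N : ℝ) / #T) (by rw [nsmul_eq_mul, mul_div_cancel₀ _ hTpos.ne'])
  have hNpos : (0 : ℝ) < #N := by exact_mod_cast Finset.card_pos.2 ⟨i₀, hi₀⟩
  have hSpos : (0 : ℝ) < #{x ∈ N | z x / (h : ℤ) = y} := lt_of_lt_of_le (by positivity) hyc
  obtain ⟨r, hr⟩ := Finset.card_pos.1 (by exact_mod_cast hSpos)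
  refine ⟨{x ∈ N | z x / (h : ℤ) = y}, r, Finset.filter_subset _ _, hr, ?_, ?_⟩
  · rw [div_le_iff₀ hTpos] at hyc
    refine hyc.trans ?_
    rw [mul_comm]
    exact mul_le_mul_of_nonneg_right hTc hSpos.le
  · intro i hi
    exact Pool.Agent.J4H26.KT.cell_close hh ((Finset.mem_filter.1 hi).2.trans (Finset.mem_filter.1 hr).2.symm)

theorem t_BIG : S_UFAR → S_MASS → S_BIG := by
  classical
  intro hU hM J η ρ ρ' hη hρ' hρ
  obtain ⟨e, he⟩ : ∃ e : ℝ, e = η / (3 * ((J : ℝ) ^ 2 + 1)) := ⟨_, rfl⟩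
  have he0 : 0 < e := by rw [he]; positivity
  obtain ⟨G, hG, hUG⟩ := hU e he0
  have hsρ : 0 < √ρ' := Real.sqrt_pos.2 hρ'
  obtain ⟨D, hD⟩ : ∃ D : ℝ, D = 1 + G / √ρ' := ⟨_, rfl⟩
  have hD1 : 1 ≤ D := by
    rw [hD]
    have : 0 < G / √ρ' := by positivity
    linarith
  have hM' : ∀ j : Fin J, ∃ c : ℝ, 0 < c ∧ ∀ᶠ s : ℕ in atTop,
      c ≤ sw (fun u : ℤ => ge1 ⌈(s : ℝ) / 2 + ((j : ℕ) * D) * √s⌉ u * le1 ⌊(s : ℝ) / 2 + ((j : ℕ) * D + 1) * √s⌋ u) s 0 :=
    fun j => hM ((j : ℕ) * D) 1 (by positivity) one_pos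
  choose c hc hcs using hM'
  obtain ⟨c₀, hc₀, hc₀1, hc₀c⟩ : ∃ c₀ : ℝ, 0 < c₀ ∧ c₀ ≤ 1 / 2 ∧ ∀ j, c₀ ≤ c j := by
    obtain ⟨S, hS⟩ : ∃ S : Finset ℝ, S = insert (1 / 2) (univ.image c) := ⟨_, rfl⟩
    have hne : S.Nonempty := by rw [hS]; exact insert_nonempty _ _
    refine ⟨S.min' hne, ?_, S.min'_le _ (by rw [hS]; exact mem_insert_self _ _),
      fun j => S.min'_le _ (by rw [hS]; exact mem_insert_of_mem (mem_image_of_mem c (mem_univ j)))⟩
    have h1 := S.min'_mem hne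
    obtain ⟨x, hx⟩ : ∃ x, x = S.min' hne := ⟨_, rfl⟩
    rw [← hx] at h1 ⊢
    rw [hS, mem_insert, mem_image] at h1
    rcases h1 with h1 | ⟨j, _, h1⟩
    · rw [h1]; norm_num
    · rw [← h1]; exact hc j
  -- the exponent `a`
  obtain ⟨a, ha, ha1⟩ : ∃ a : ℝ, 0 < a ∧ (2 : ℝ) ^ a * (1 - c₀ / 2) < 1 := by
    have h1 : 0 < 1 - c₀ / 2 := by linarith
    have h2 : 1 < (1 - c₀ / 2)⁻¹ := (one_lt_inv₀ h1).2 (by linarith)
    refine ⟨Real.logb 2 (1 - c₀ / 2)⁻¹ / 2, by
      have := Real.logb_pos (by norm_num : (1 : ℝ) < 2) h2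
      positivity, ?_⟩
    have h3 : (2 : ℝ) ^ (Real.logb 2 (1 - c₀ / 2)⁻¹ / 2) < (2 : ℝ) ^ (Real.logb 2 (1 - c₀ / 2)⁻¹) := by
      apply Real.rpow_lt_rpow_of_exponent_lt (by norm_num)
      have := Real.logb_pos (by norm_num : (1 : ℝ) < 2) h2
      linarith
    rw [Real.rpow_logb (by norm_num) (by norm_num) (by positivity)] at h3
    calc (2 : ℝ) ^ (Real.logb 2 (1 - c₀ / 2)⁻¹ / 2) * (1 - c₀ / 2) < (1 - c₀ / 2)⁻¹ * (1 - c₀ / 2) :=
          mul_lt_mul_of_pos_right h3 h1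
      _ = 1 := inv_mul_cancel₀ h1.ne'
  obtain ⟨q, hq⟩ : ∃ q : ℝ, q = (2 : ℝ) ^ a * (1 - c₀ / 2) := ⟨_, rfl⟩
  have hq0 : 0 ≤ q := by
    rw [hq]
    have : 0 < 1 - c₀ / 2 := by linarith
    positivity
  rw [← hq] at ha1
  obtain ⟨K₀, hK₀⟩ := exists_pow_lt_of_lt_one (by positivity : 0 < η / (3 * ((J : ℝ) + 1))) ha1
  obtain ⟨γ, hγ⟩ : ∃ γ : ℝ, γ = η / (36 * ((J : ℝ) + 1)) := ⟨_, rfl⟩
  have hγ0 : 0 < γ := by rw [hγ]; positivity
  obtain ⟨m, hm⟩ : ∃ m : ℝ, m = √ρ / γ + 2 := ⟨_, rfl⟩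
  have hm0 : 0 < m := by rw [hm]; positivity
  refine ⟨a / (2 * m), by positivity, K₀ + 1, fun K hK => ?_⟩
  have hK1 : (0 : ℝ) < K := by exact_mod_cast (by omega : 0 < K)
  have hs : ∀ᶠ s : ℕ in atTop, ∀ j : Fin J,
      c₀ ≤ sw (fun u : ℤ => ge1 ⌈(s : ℝ) / 2 + ((j : ℕ) * D) * √s⌉ u * le1 ⌊(s : ℝ) / 2 + ((j : ℕ) * D + 1) * √s⌋ u) s 0 := by
    rw [eventually_all]
    intro j
    filter_upwards [hcs j] with s h
    exact (hc₀c j).trans h
  obtain ⟨s₀, hs₀⟩ := eventually_atTop.1 hs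
  filter_upwards [hUG, eventually_ge_atTop ⌈(s₀ : ℝ) / ρ'⌉₊, eventually_ge_atTop 1,
    eventually_ge_atTop ⌈1 / γ ^ 2⌉₊] with k h1 h2 hk1 hkγ s h4 h4'
  have hk0 : (0 : ℝ) < k := by exact_mod_cast hk1
  have hsk : 0 < √(k : ℝ) := Real.sqrt_pos.2 hk0
  have hγk : 1 ≤ γ * √(k : ℝ) := by
    have h5 : 1 / γ ^ 2 ≤ (k : ℝ) := (Nat.le_ceil _).trans (by exact_mod_cast hkγ)
    have h6 : 1 / γ ≤ √(k : ℝ) := by
      apply Real.le_sqrt_of_sq_le
      rw [div_pow, one_pow]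
      exact h5
    rw [div_le_iff₀ hγ0] at h6
    linarith
  obtain ⟨h, hh⟩ : ∃ h : ℕ, h = ⌈γ * √(k : ℝ)⌉₊ := ⟨_, rfl⟩
  have hh1 : γ * √(k : ℝ) ≤ h := by rw [hh]; exact Nat.le_ceil _
  have hh2 : (h : ℝ) ≤ 2 * (γ * √(k : ℝ)) := by
    rw [hh]
    have := Nat.ceil_lt_add_one (by positivity : 0 ≤ γ * √(k : ℝ))
    linarith
  have hh3 : 1 ≤ h := by
    have : (1 : ℝ) ≤ h := hγk.trans hh1
    exact_mod_cast this
  have hss : s₀ ≤ s := by
    have h5 : (s₀ : ℝ) / ρ' ≤ k := (Nat.le_ceil _).trans (by exact_mod_cast h2)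
    rw [div_le_iff₀ hρ'] at h5
    exact_mod_cast (by linarith : (s₀ : ℝ) ≤ s)
  have hmass := hs₀ s hss
  obtain ⟨f, hf⟩ : ∃ f : Fin J → ℤ → ℝ, f = fun (j : Fin J) (u : ℤ) =>
    ge1 ⌈(s : ℝ) / 2 + ((j : ℕ) * D) * √s⌉ u * le1 ⌊(s : ℝ) / 2 + ((j : ℕ) * D + 1) * √s⌋ u := ⟨_, rfl⟩
  have hmass' : ∀ j, c₀ ≤ sw (f j) s 0 := fun j => by rw [hf]; exact hmass j
  have hf01 : ∀ j u, f j u = 0 ∨ (f j u = 1 ∧ (s : ℝ) / 2 + ((j : ℕ) * D) * √s ≤ u ∧
      (u : ℝ) ≤ (s : ℝ) / 2 + ((j : ℕ) * D + 1) * √s) := by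
    intro j u
    rw [hf]
    simp only [ge1, le1]
    by_cases ha : ⌈(s : ℝ) / 2 + ((j : ℕ) * D) * √s⌉ ≤ u
    · by_cases hb : u ≤ ⌊(s : ℝ) / 2 + ((j : ℕ) * D + 1) * √s⌋
      · right
        rw [if_pos ha, if_pos hb]
        exact ⟨by norm_num, Int.ceil_le.1 ha, Int.le_floor.1 hb⟩
      · left
        rw [if_neg hb, mul_zero]
    · left
      rw [if_neg ha, zero_mul]
  -- distances
  have hks : G * √(k : ℝ) ≤ (D - 1) * √(s : ℝ) := by
    have h5 : √ρ' * √(k : ℝ) ≤ √(s : ℝ) := by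
      rw [← Real.sqrt_mul hρ'.le]
      exact Real.sqrt_le_sqrt h4
    have h6 : D - 1 = G / √ρ' := by rw [hD]; ring
    rw [h6]
    calc G * √(k : ℝ) = G / √ρ' * (√ρ' * √(k : ℝ)) := by field_simp
      _ ≤ G / √ρ' * √(s : ℝ) := mul_le_mul_of_nonneg_left h5 (by positivity)
  have hsh : √(s : ℝ) / h + 2 ≤ m := by
    have h5 : √(s : ℝ) ≤ √ρ * √(k : ℝ) := by
      rw [← Real.sqrt_mul hρ.le]
      exact Real.sqrt_le_sqrt h4'
    rw [hm]
    have h6 : √(s : ℝ) / h ≤ √ρ / γ := by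
      rw [div_le_div_iff₀ (by positivity) hγ0]
      calc √(s : ℝ) * γ ≤ √ρ * √(k : ℝ) * γ := mul_le_mul_of_nonneg_right h5 hγ0.le
        _ = √ρ * (γ * √(k : ℝ)) := by ring
        _ ≤ √ρ * h := mul_le_mul_of_nonneg_left hh1 (Real.sqrt_nonneg _)
    linarith
  obtain ⟨N, hN⟩ : ∃ N : (Fin K → ℤ) → Fin J → Finset (Fin K), N = fun z j => univ.filter fun i => f j (z i) = 1 :=
    ⟨_, rfl⟩
  -- the product
  have hprod : ∀ (z : Fin K → ℤ) (j : Fin J), ∏ i, (1 - f j (z i) / 2) = (1 / 2 : ℝ) ^ #(N z j) := by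
    intro z j
    have h5 : ∀ i ∈ (univ : Finset (Fin K)), (1 - f j (z i) / 2) = if f j (z i) = 1 then (1 / 2 : ℝ) else 1 := by
      intro i _
      rcases hf01 j (z i) with h6 | ⟨h6, -, -⟩
      · rw [if_neg (by rw [h6]; norm_num), h6]; norm_num
      · rw [if_pos h6, h6]; norm_num
    rw [prod_congr rfl h5, prod_ite, prod_const, prod_const_one, mul_one, hN]
  -- pointwise
  have hpt : ∀ z : Fin K → ℤ, (1 - (J * (6 * h / √(k : ℝ)) + (J : ℝ) ^ 2 * e)) -
      ∑ j : Fin J, (2 : ℝ) ^ (a * K) * ∏ i, (1 - f j (z i) / 2) ≤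
      cw (bigI (a / (2 * m)) J : (Fin K → ℤ) → ℝ) k z := by
    intro z
    have hp : ∀ j : Fin J, 0 ≤ (2 : ℝ) ^ (a * K) * ∏ i, (1 - f j (z i) / 2) := fun j => by
      rw [hprod]
      positivity
    by_cases hz : ∀ j : Fin J, a * K < #(N z j)
    · have hcell : ∀ j : Fin J, ∃ (S : Finset (Fin K)) (r : Fin K), S ⊆ N z j ∧ r ∈ S ∧
          (#(N z j) : ℝ) ≤ (√(s : ℝ) / h + 2) * #S ∧ ∀ i ∈ S, |z i - z r| ≤ h := by
        intro j
        refine cell_pigeon hh3 z ((s : ℝ) / 2 + ((j : ℕ) * D) * √s) (√(s : ℝ)) (Real.sqrt_nonneg _) (N z j) ?_ ?_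
        · intro i hi
          rw [hN, mem_filter] at hi
          rcases hf01 j (z i) with h6 | ⟨-, h6, h7⟩
          · rw [h6] at hi
            exact absurd hi.2 (by norm_num)
          · exact ⟨h6, by linarith⟩
        · rw [← Finset.card_pos]
          have h5 : (0 : ℝ) < #(N z j) := lt_trans (by positivity) (hz j)
          exact_mod_cast h5
      choose S r hSN hrS hSc hSz using hcell
      have hSpos : ∀ j, 0 < (#(S j) : ℝ) := fun j => by
        exact_mod_cast Finset.card_pos.2 ⟨r j, hrS j⟩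
      have h5 := cw_big (h := h) hk1 he0.le (a / (2 * m)) S r (fun j => by
        have h6 : a * K ≤ m * #(S j) := ((hz j).le.trans (hSc j)).trans
          (mul_le_mul_of_nonneg_right hsh (hSpos j).le)
        have h7 : 2 * (a / (2 * m) * K) = a * K / m := by
          field_simp
        rw [h7, div_le_iff₀ hm0]
        linarith) hSpos z hSz (fun j j' hjj => by
        have b0 : ∀ j, f j (z (r j)) = 1 := fun j => by
          have := hSN j (hrS j)
          rw [hN, mem_filter] at this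
          exact this.2
        obtain ⟨_, _, a2⟩ := (hf01 j (z (r j))).resolve_left (by rw [b0 j]; norm_num)
        obtain ⟨_, b1, _⟩ := (hf01 j' (z (r j'))).resolve_left (by rw [b0 j']; norm_num)
        refine h1 _ ?_
        refine le_trans ?_ (le_abs_self _)
        push_cast
        have h6 : ((j : ℕ) : ℝ) + 1 ≤ (j' : ℕ) := by exact_mod_cast hjj
        have h7 : (((j : ℕ) : ℝ) + 1) * D ≤ (j' : ℕ) * D := mul_le_mul_of_nonneg_right h6 (by linarith)
        have h8 : ((((j : ℕ) : ℝ) + 1) * D) * √(s : ℝ) ≤ ((j' : ℕ) * D) * √(s : ℝ) :=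
          mul_le_mul_of_nonneg_right h7 (Real.sqrt_nonneg _)
        nlinarith)
      have h6 : 0 ≤ ∑ j : Fin J, (2 : ℝ) ^ (a * K) * ∏ i, (1 - f j (z i) / 2) := sum_nonneg fun j _ => hp j
      linarith
    · push Not at hz
      obtain ⟨j, hj⟩ := hz
      have h5 : 1 ≤ (2 : ℝ) ^ (a * K) * ∏ i, (1 - f j (z i) / 2) := by
        rw [hprod]
        have h6 : (2 : ℝ) ^ #(N z j) ≤ (2 : ℝ) ^ (a * K) := by
          rw [← Real.rpow_natCast]
          exact Real.rpow_le_rpow_of_exponent_le (by norm_num) hj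
        calc (1 : ℝ) = (2 : ℝ) ^ #(N z j) * (1 / 2 : ℝ) ^ #(N z j) := by
              rw [← mul_pow]; norm_num
          _ ≤ _ := mul_le_mul_of_nonneg_right h6 (by positivity)
      have h6 : (1 : ℝ) ≤ ∑ j : Fin J, (2 : ℝ) ^ (a * K) * ∏ i, (1 - f j (z i) / 2) :=
        h5.trans (single_le_sum (f := fun j : Fin J => (2 : ℝ) ^ (a * K) * ∏ i, (1 - f j (z i) / 2))
          (fun b _ => hp b) (mem_univ j))
      have h7 : 0 ≤ cw (bigI (a / (2 * m)) J : (Fin K → ℤ) → ℝ) k z := by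
        refine (isE_cw k z).nonneg fun u => ?_
        unfold bigI
        split_ifs <;> norm_num
      have h8 : 0 ≤ (J : ℝ) ^ 2 * e := by positivity
      have h9 : 0 ≤ J * (6 * h / √(k : ℝ)) := by positivity
      linarith
  have hE := isE_iw (k := K) s (fun _ => 0)
  refine le_trans ?_ (hE.mono _ _ hpt)
  rw [hE.sub, hE.const, hE.sum]
  have h5 : ∀ j ∈ (univ : Finset (Fin J)), iw (fun z : Fin K → ℤ => (2 : ℝ) ^ (a * K) *
      ∏ i, (1 - f j (z i) / 2)) s (fun _ => 0) ≤ η / (3 * ((J : ℝ) + 1)) := by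
    intro j _
    rw [hE.smul, iw_prod (fun x => 1 - f j x / 2)]
    have e1 : sw (fun x => 1 - f j x / 2) s 0 = 1 - sw (f j) s 0 / 2 := by
      have e2 : (fun x => 1 - f j x / 2) = fun x => (1 : ℝ) + (-(1 / 2)) * f j x := by
        funext x
        ring
      rw [e2, sw_add (fun _ => 1) (fun x => (-(1 / 2)) * f j x), sw_smul, sw_const]
      ring
    have h6 : 0 ≤ sw (fun x => 1 - f j x / 2) s 0 := sw_nonneg (fun x => by
      rcases hf01 j x with h7 | ⟨h7, -, -⟩ <;> rw [h7] <;> norm_num) s 0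
    have h7 : sw (fun x => 1 - f j x / 2) s 0 ≤ 1 - c₀ / 2 := by
      rw [e1]
      linarith [hmass' j]
    calc (2 : ℝ) ^ (a * K) * (sw (fun x => 1 - f j x / 2) s 0) ^ K
        ≤ (2 : ℝ) ^ (a * K) * (1 - c₀ / 2) ^ K :=
          mul_le_mul_of_nonneg_left (pow_le_pow_left₀ h6 h7 _) (by positivity)
      _ = q ^ K := by rw [Real.rpow_mul_natCast (by norm_num), ← mul_pow, ← hq]
      _ ≤ q ^ K₀ := pow_le_pow_of_le_one hq0 ha1.le (by omega)
      _ ≤ _ := hK₀.le
  have h6 := sum_le_sum h5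
  rw [sum_const, card_univ, Fintype.card_fin, nsmul_eq_mul] at h6
  have h7 : (J : ℝ) * (η / (3 * ((J : ℝ) + 1))) ≤ η / 3 := by
    rw [mul_div_assoc', div_le_div_iff₀ (by positivity) (by positivity)]
    nlinarith
  have h8 : (J : ℝ) ^ 2 * e ≤ η / 3 := by
    rw [he, mul_div_assoc', div_le_div_iff₀ (by positivity) (by positivity)]
    nlinarith
  have h9 : J * (6 * h / √(k : ℝ)) ≤ η / 3 := by
    have h10 : 6 * h / √(k : ℝ) ≤ 12 * γ := by
      rw [div_le_iff₀ hsk]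
      linarith
    have h11 : (J : ℝ) * (12 * γ) ≤ η / 3 := by
      rw [hγ]
      have h12 : (J : ℝ) * (12 * (η / (36 * ((J : ℝ) + 1)))) = (12 * J * η) / (36 * ((J : ℝ) + 1)) := by ring
      rw [h12, div_le_div_iff₀ (by positivity) (by positivity)]
      nlinarith
    exact (mul_le_mul_of_nonneg_left h10 (by positivity)).trans h11
  linarith

end Pool.Agent.J4H72.KP
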